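import Pool.Agent.H67.SQ.Conn

/-!
# SR Crit: the differential vanishes at a maximum
-/

set_option autoImplicit false

open scoped Manifold ContDiff Topology
open MeasureTheory Bundle

namespace Pool.Agent.H63.SR

open Pool.Agent.H67.SQ

variable {E : Type*} [NormedAddCommGroup E] [NormedSpace ℝ E] [FiniteDimensional ℝ E]
  {M : Type*} [TopologicalSpace M] [ChartedSpace E M] [IsManifold 𝓘(ℝ, E) ∞ M]

theorem mfderiv_max {u : M → ℝ} (hu : Smooth E u) {x0 : M} (h : ∀ x, u x ≤ u x0) :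
    mfderiv 𝓘(ℝ, E) 𝓘(ℝ, ℝ) u x0 = 0 := by
  have hd : MDifferentiableAt 𝓘(ℝ, E) 𝓘(ℝ, ℝ) u x0 := hu.mdifferentiableAt (by simp)
  rw [hd.mfderiv]
  have h1 : Set.range (𝓘(ℝ, E)) = Set.univ := by simp
  rw [h1, fderivWithin_univ]
  apply IsLocalMax.fderiv_eq_zero
  refine Filter.Eventually.of_forall fun e => ?_
  simp only [writtenInExtChartAt, extChartAt, mfld_simps]
  exact h _

theorem diff_max {u : M → ℝ} (hu : Smooth E u) {x0 : M} (h : ∀ x, u x ≤ u x0) (v : TangentSpace 𝓘(ℝ, E) x0) :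
    diff E u x0 v = 0 := by
  unfold diff
  rw [mfderiv_max hu h]
  rfl

theorem crit [RiemannianBundle (fun x : M ↦ TangentSpace 𝓘(ℝ, E) x)]
    [IsContMDiffRiemannianBundle 𝓘(ℝ, E) ∞ E (fun x : M ↦ TangentSpace 𝓘(ℝ, E) x)]
    {u : M → ℝ} (hu : Smooth E u) {x0 : M} (h : ∀ x, u x ≤ u x0) : Gam E u u x0 = 0 := by
  rw [Gam_eq hu hu x0 (stdOrthonormalBasis ℝ (TangentSpace 𝓘(ℝ, E) x0))]
  refine Finset.sum_eq_zero fun i _ => ?_
  rw [diff_max hu h, mul_zero]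

end Pool.Agent.H63.SR
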