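import Pool.Agent.H67.SQ.Conn

/-!
# SR Grow: a smooth function near a maximum
-/

set_option autoImplicit false

open scoped Manifold ContDiff Topology
open MeasureTheory Bundle

namespace Pool.Agent.H63.SR

open Pool.Agent.H67.SQ

/-- Taylor: near a local maximum a `C²` function is at least its value minus `K |x - x0| ^ 2` -/
theorem taylor {E : Type*} [NormedAddCommGroup E] [NormedSpace ℝ E] {w : E → ℝ} {e0 : E}
    (hw : ContDiffAt ℝ 2 w e0) (h : IsLocalMax w e0) :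
    ∃ K > 0, ∃ δ > 0, ∀ e, ‖e - e0‖ < δ → w e0 - K * ‖e - e0‖ ^ 2 ≤ w e := by
  have h0 : fderiv ℝ w e0 = 0 := h.fderiv_eq_zero
  have h1 : ContDiffAt ℝ 1 (fderiv ℝ w) e0 := hw.fderiv_right (by norm_num)
  obtain ⟨K, t, ht, hK⟩ := h1.exists_lipschitzOnWith
  have h2 : ∀ᶠ e in 𝓝 e0, DifferentiableAt ℝ w e := by
    have h3 : ∀ᶠ e in 𝓝 e0, ContDiffAt ℝ 2 w e := hw.eventually (by simp)
    exact h3.mono fun e he => he.differentiableAt (by norm_num)
  obtain ⟨δ, hδ, hball⟩ := Metric.eventually_nhds_iff_ball.1 (h2.and (Filter.eventually_mem_set.2 ht))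
  refine ⟨K + 1, by positivity, δ, hδ, fun e he => ?_⟩
  have hconv : Convex ℝ (Metric.closedBall e0 ‖e - e0‖) := convex_closedBall _ _
  have hsub : ∀ z ∈ Metric.closedBall e0 ‖e - e0‖, z ∈ Metric.ball e0 δ := by
    intro z hz
    rw [Metric.mem_closedBall] at hz
    rw [Metric.mem_ball]
    exact hz.trans_lt he
  have hmv := hconv.norm_image_sub_le_of_norm_fderiv_le (𝕜 := ℝ) (f := w) (C := K * ‖e - e0‖)
    (fun z hz => (hball z (hsub z hz)).1)
    (fun z hz => by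
      have h4 := hK.dist_le_mul z (hball z (hsub z hz)).2 e0 (hball e0 (Metric.mem_ball_self hδ)).2
      rw [h0, dist_zero_right] at h4
      rw [Metric.mem_closedBall] at hz
      exact h4.trans (mul_le_mul_of_nonneg_left hz (by positivity)))
    (Metric.mem_closedBall_self (norm_nonneg _))
    (show e ∈ Metric.closedBall e0 ‖e - e0‖ by rw [Metric.mem_closedBall, dist_eq_norm])
  rw [Real.norm_eq_abs] at hmv
  have h5 := (abs_le.1 hmv).1
  have h6 : 0 ≤ ‖e - e0‖ ^ 2 := by positivity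
  nlinarith

variable {E : Type*} [NormedAddCommGroup E] [NormedSpace ℝ E] [FiniteDimensional ℝ E]
  {M : Type*} [TopologicalSpace M] [ChartedSpace E M] [IsManifold 𝓘(ℝ, E) ∞ M]

theorem grow [MeasurableSpace M] {μ : Measure M} [IsFiniteMeasure μ] {d : ℕ}
    {u : M → ℝ} (hu : Smooth E u) {x0 : M} (h : ∀ x, u x ≤ u x0)
    (hμ : ∃ c > 0, ∃ ε0 > 0, ∀ ε : ℝ, 0 < ε → ε ≤ ε0 →
      c * ε ^ d ≤ μ.real {x | x ∈ (chartAt E x0).source ∧ ‖chartAt E x0 x - chartAt E x0 x0‖ < ε}) :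
    ∃ c > 0, ∃ s0 > 0, ∀ s : ℝ, 0 < s → s ≤ s0 → c * s ^ ((d : ℝ) / 2) ≤ μ.real {x | u x0 - s ≤ u x} := by
  set w : E → ℝ := u ∘ (chartAt E x0).symm with hwdef
  have hsrc : x0 ∈ (chartAt E x0).source := mem_chart_source E x0
  have htgt : chartAt E x0 x0 ∈ (chartAt E x0).target := mem_chart_target E x0
  have hinv : (chartAt E x0).symm (chartAt E x0 x0) = x0 := (chartAt E x0).left_inv hsrc
  have hw : ContDiffAt ℝ 2 w (chartAt E x0 x0) := by
    have h1 : ContMDiffOn 𝓘(ℝ, E) 𝓘(ℝ, ℝ) ∞ w (chartAt E x0).target := by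
      have h2 : ContMDiffOn 𝓘(ℝ, E) 𝓘(ℝ, E) ∞ (chartAt E x0).symm (chartAt E x0).target :=
        contMDiffOn_chart_symm
      exact ContMDiff.comp_contMDiffOn hu h2
    have h3 : ContDiffOn ℝ ∞ w (chartAt E x0).target := contMDiffOn_iff_contDiffOn.1 h1
    have h4 := h3.contDiffAt ((chartAt E x0).open_target.mem_nhds htgt)
    exact h4.of_le (show ((2 : ℕ∞) : WithTop ℕ∞) ≤ ((⊤ : ℕ∞) : WithTop ℕ∞) from WithTop.coe_le_coe.2 le_top)
  have hmax : IsLocalMax w (chartAt E x0 x0) := by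
    refine Filter.Eventually.of_forall fun e => ?_
    show u ((chartAt E x0).symm e) ≤ u ((chartAt E x0).symm (chartAt E x0 x0))
    rw [hinv]
    exact h _
  obtain ⟨K, hK, δ, hδ, hT⟩ := taylor hw hmax
  obtain ⟨c, hc, ε0, hε0, hden⟩ := hμ
  have hmin : 0 < min ε0 (δ / 2) := lt_min hε0 (by linarith)
  refine ⟨c * (1 / K) ^ ((d : ℝ) / 2), by positivity, K * (min ε0 (δ / 2)) ^ 2, by positivity, fun s hs hs0 => ?_⟩
  have hsK : s / K ≤ (min ε0 (δ / 2)) ^ 2 := by
    rw [div_le_iff₀ hK, mul_comm]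
    exact hs0
  have hε : √(s / K) ≤ min ε0 (δ / 2) := Real.sqrt_le_iff.2 ⟨hmin.le, hsK⟩
  have hεpos : 0 < √(s / K) := Real.sqrt_pos.2 (by positivity)
  have h1 := hden (√(s / K)) hεpos (hε.trans (min_le_left _ _))
  have h2 : μ.real {x | x ∈ (chartAt E x0).source ∧ ‖chartAt E x0 x - chartAt E x0 x0‖ < √(s / K)} ≤
      μ.real {x | u x0 - s ≤ u x} := by
    refine measureReal_mono ?_ (measure_ne_top _ _)
    rintro x ⟨hx, hx2⟩
    have h3 := hT (chartAt E x0 x) (by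
      have := hε.trans (min_le_right _ _)
      linarith)
    have h4 : w (chartAt E x0 x) = u x := by
      show u ((chartAt E x0).symm (chartAt E x0 x)) = u x
      rw [(chartAt E x0).left_inv hx]
    have h5 : w (chartAt E x0 x0) = u x0 := by
      show u ((chartAt E x0).symm (chartAt E x0 x0)) = u x0
      rw [hinv]
    rw [h4, h5] at h3
    have h6 : ‖chartAt E x0 x - chartAt E x0 x0‖ ^ 2 ≤ s / K := by
      have h7 := pow_le_pow_left₀ (norm_nonneg _) hx2.le 2
      rwa [Real.sq_sqrt (by positivity)] at h7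
    have h8 : K * ‖chartAt E x0 x - chartAt E x0 x0‖ ^ 2 ≤ s := by
      have := mul_le_mul_of_nonneg_left h6 hK.le
      rwa [mul_div_cancel₀ _ hK.ne'] at this
    show u x0 - s ≤ u x
    linarith
  refine le_trans (le_of_eq ?_) (h1.trans h2)
  rw [mul_assoc, ← Real.mul_rpow (by positivity) hs.le, Real.sqrt_eq_rpow, ← Real.rpow_natCast, ← Real.rpow_mul (by positivity)]
  congr 2
  · ring
  · ring

end Pool.Agent.H63.SR
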